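import Pool.Agent.Helper35.SHQ.Sheet

/-! Row SHF of SHQ (MP_0dfa80_co): the shuffle relation. -/

namespace SHQ

theorem Shf.symm' {x a d : W} (h : Shf x a d) : Shf x d a := by
  induction h with
  | nil => exact Shf.nil
  | left c _ ih => exact Shf.right c ih
  | right c _ ih => exact Shf.left c ih

theorem Shf.append' {x a d x' a' d' : W} (h : Shf x a d) (h' : Shf x' a' d') :
    Shf (x ++ x') (a ++ a') (d ++ d') := by
  induction h with
  | nil => exact h'
  | left c _ ih => exact Shf.left c ih
  | right c _ ih => exact Shf.right c ih

theorem Shf.self' (x : W) : Shf x x [] := by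
  induction x with
  | nil => exact Shf.nil
  | cons c x ih => exact Shf.left c ih

theorem Shf.length' {x a d : W} (h : Shf x a d) : x.length = a.length + d.length := by
  induction h with
  | nil => rfl
  | left c _ ih => simp only [List.length_cons]; omega
  | right c _ ih => simp only [List.length_cons]; omega

theorem st_SHF : ST_SHF :=
  ⟨fun _ _ _ h => h.symm', fun _ _ _ _ _ _ h h' => h.append' h', fun x => Shf.self' x,
    fun _ _ _ h => h.length'⟩

end SHQ
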